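import Pool.Agent.Results.MP_081200_nt.FewDigitCubicCharacters
import Pool.Agent.X174.DigitWin

/-!
# Square-root cancellation in short sums of the cubic residue symbols of ALL Eisenstein integers in squares

**Theorem.** For every `δ > 0` and every integer `A ≥ 0` there is `c > 0` such that for every `κ > 0` with `κ A ≤ 1`, every
sequence `v ≥ 1` of exponent of convergence at most `τ` (for `v_i = (i + 1) ^ b` this is `1 / b`, for `v_i = b ^ i` it is `0`)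
and every `ρ < 1` there is a set `E ⊂ ℝ²` of Hausdorff dimension at most `(2 - 2 κ A + τ) / (1 - ρ)` such that for each `x ∈ ℝ²`
outside `E` there is `i₀` such that for ALL natural numbers `m_0`, `m_1` with `|m_l - x_l v_i| ≤ v_i ^ ρ` for some `i ≥ i₀` the
following holds: if the norm of `α = m_0 + m_1 ω` is not divisible by `3` and `ψ` is the cubic residue symbol of `α`, a Dirichlet
character modulo the norm of `α`, then for all integers `X` with `v_i ^ κ ≤ X ≤ v_i ^ c`, all `M < M' ≤ X`, all residue classes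
`a` modulo an integer `k` with `1 ≤ k ≤ X ^ A` and all real `t` with `|t| ≤ X ^ A` the sum `∑ ψ (n) n ^ (- i t)` over the
integers `n ≡ a (mod k)` with `M < n ≤ M'` is at most `X ^ (1 / 2 + δ)` in absolute value.

The norm of `α` is about a constant times `v_i ^ 2`. So these sums are short, but for a given `κ > 0` (`κ < c`, `κ A ≤ 1`) there
are no exceptions among the `α` in the squares, for almost all `x` if `τ = 0` and `ρ < κ A`. The numbers of the exceptional `α`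
come from the result `FewDigitCubicCharacters` on the digits of `α`.
-/

set_option autoImplicit false

open Finset

namespace Pool.Agent.Results.MP_081200_nt.CharactersInSquares

open FewDigitCubicCharacters (Eis nm IsSymbol shortSum exceptions digit change)

/-- the exponent of convergence of the sequence `v` is at most `τ` -/
def ExpLe (v : ℕ → ℝ) (τ : ℝ) : Prop := ∀ t : ℝ, τ < t → Summable (fun n : ℕ => (v n) ^ (-t))

/-- The sum `∑ ψ (n) n ^ (- i t)` over the integers `n ≡ a (mod k)` with `M < n ≤ M'`. -/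
noncomputable def progressionSum {q : ℕ} (ψ : DirichletCharacter ℂ q) (k a : ℕ) (t : ℝ) (M M' : ℕ) : ℂ :=
  ∑ n ∈ (Ioc M M').filter (fun n => n ≡ a [MOD k]), ψ (n : ZMod q) * Complex.exp (((-(t * Real.log n) : ℝ) : ℂ) * Complex.I)

/-- the weights -/
noncomputable def wt (p : ℕ × ℕ) (n : ℕ) : ℂ := if n ≡ p.2 [MOD p.1] then 1 else 0

lemma wt_le (p : ℕ × ℕ) (n : ℕ) : ‖wt p n‖ ≤ 1 := by
  unfold wt
  split_ifs <;> simp

lemma sum_wt {q : ℕ} (ψ : DirichletCharacter ℂ q) (k a : ℕ) (t : ℝ) (M M' : ℕ) :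
    progressionSum ψ k a t M M' = shortSum ψ (wt (k, a % k)) t M M' := by
  unfold progressionSum shortSum
  rw [sum_filter]
  refine sum_congr rfl fun n _ => ?_
  have h1 : (n ≡ a % k [MOD k]) ↔ (n ≡ a [MOD k]) := by
    unfold Nat.ModEq
    rw [Nat.mod_mod]
  unfold wt
  simp only [h1]
  split_ifs <;> simp

lemma exc_spec (b : ℕ) (K s N : Fin 2 → ℕ) (f : Fin 2 → ℕ → ℕ) (E : Eis → Prop) :
    ∃ W : Finset (Fin 2 → Finset ℕ), W.card = exceptions b K s N f E ∧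
      ∀ S ∈ Fintype.piFinset (fun l => powersetCard (s l) (range (K l))), S ∉ W →
        E ⟨change b (K 0) (N 0) (f 0) (S 0), change b (K 1) (N 1) (f 1) (S 1)⟩ := by
  classical
  refine ⟨_, rfl, fun S hS hSW => ?_⟩
  by_contra h
  exact hSW (mem_filter.2 ⟨hS, h⟩)

/-- **All cubic residue symbols in squares.** For `δ > 0` and `A ≥ 0` there is `c > 0` such that for every `κ > 0` with
`κ A ≤ 1`, every sequence `v ≥ 1` of exponent of convergence at most `τ ≥ 0` and every `ρ < 1` there is a set `E ⊂ ℝ²` of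
Hausdorff dimension at most `(2 - 2 κ A + τ) / (1 - ρ)` such that for each `x` outside `E` there is `i₀` such that for all
`i ≥ i₀`, all natural numbers `m_0`, `m_1` with `|m_l - x_l v_i| ≤ v_i ^ ρ` for which `3` does not divide the norm of
`α = m_0 + m_1 ω`, the cubic residue symbol `ψ` of `α`, all integers `X` with `v_i ^ κ ≤ X ≤ v_i ^ c`, all `k`, `a` with
`1 ≤ k ≤ X ^ A`, all real `t` with `|t| ≤ X ^ A` and all `M`, `M' ≤ X` the sum `∑ ψ (n) n ^ (- i t)` over the integers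
`n ≡ a (mod k)` with `M < n ≤ M'` is at most `X ^ (1 / 2 + δ)` in absolute value. The sequences `v_i = (i + 1) ^ b` and
`v_i = b ^ i` have exponent of convergence at most `1 / b` and `0`. -/
theorem result :
    (∀ δ : ℝ, 0 < δ → ∀ A : ℕ, ∃ c : ℝ, 0 < c ∧ ∀ κ : ℝ, 0 < κ → κ * A ≤ 1 →
      ∀ (v : ℕ → ℝ) (τ ρ : ℝ), (∀ i, 1 ≤ v i) → 0 ≤ τ → ExpLe v τ → ρ < 1 →
      ∃ E : Set (Fin 2 → ℝ), dimH E ≤ ENNReal.ofReal ((2 - 2 * κ * A + τ) / (1 - ρ)) ∧ ∀ x : Fin 2 → ℝ, x ∉ E →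
        ∃ i₀ : ℕ, ∀ i : ℕ, i₀ ≤ i → ∀ m : Fin 2 → ℕ, (∀ l, |(m l : ℝ) - x l * v i| ≤ (v i) ^ ρ) →
          ¬ (3 : ℤ) ∣ nm (⟨m 0, m 1⟩ : Eis) → ∀ ψ : DirichletCharacter ℂ (nm (⟨m 0, m 1⟩ : Eis)).natAbs, IsSymbol ⟨m 0, m 1⟩ ψ →
          ∀ X : ℕ, (v i) ^ κ ≤ X → (X : ℝ) ≤ (v i) ^ c → ∀ k a : ℕ, 1 ≤ k → k ≤ X ^ A → ∀ t : ℝ, |t| ≤ (X : ℝ) ^ A →
            ∀ M M' : ℕ, M' ≤ X → ‖progressionSum ψ k a t M M'‖ ≤ (X : ℝ) ^ (1 / 2 + δ)) ∧
    (∀ b : ℝ, 0 < b → ExpLe (fun n : ℕ => ((n : ℝ) + 1) ^ b) (1 / b)) ∧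
    (∀ b : ℝ, 1 < b → ExpLe (fun n : ℕ => b ^ n) 0) := by
  classical
  refine ⟨fun δ hδ A => ?_, fun κ hκ => Pool.Agent.Y854.GM.expLe_pow κ hκ,
    fun b hb => Pool.Agent.Y854.GM.expLe_geom b hb⟩
  obtain ⟨c, hc, y₀, h⟩ := FewDigitCubicCharacters.result 2 le_rfl δ hδ (2 * A)
  refine ⟨c / 4, by positivity, fun κ hκ hκA v τ ρ hv hτ hE hρ => ?_⟩
  have hΛ : ∀ x : ℕ, ((Icc 1 (x ^ A)) ×ˢ (range (x ^ A)) : Finset (ℕ × ℕ)).card ≤ x ^ (2 * A) := by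
    intro x
    rw [card_product, Nat.card_Icc, card_range, two_mul, pow_add]
    simp
  obtain ⟨E, h1, h2⟩ := Pool.Agent.X174.digitWin (d := 2) (c := c) hc (max y₀ 1) (2 * A)
    (fun X m => ¬ (3 : ℤ) ∣ nm (⟨m 0, m 1⟩ : Eis) → ∀ ψ : DirichletCharacter ℂ (nm (⟨m 0, m 1⟩ : Eis)).natAbs,
      IsSymbol ⟨m 0, m 1⟩ ψ → ∀ p ∈ ((Icc 1 (X ^ A)) ×ˢ (range (X ^ A)) : Finset (ℕ × ℕ)), ∀ t : ℝ, |t| ≤ (X : ℝ) ^ (2 * A) →
        ∀ M M' : ℕ, M' ≤ X → ‖shortSum ψ (wt p) t M M'‖ ≤ (X : ℝ) ^ (1 / 2 + δ)) (by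
      intro K r y hrK hy N hN f hf
      have h3 := h K r y hrK ((le_max_left _ _).trans hy) N hN f hf (ℕ × ℕ) wt
        (fun x => (Icc 1 (x ^ A)) ×ˢ (range (x ^ A))) wt_le hΛ
      obtain ⟨W, hW1, hW2⟩ := exc_spec 2 K r N f (fun α => ¬ (3 : ℤ) ∣ nm α → ∀ ψ : DirichletCharacter ℂ (nm α).natAbs, IsSymbol α ψ →
        ∀ x : ℕ, y ≤ x → (∀ l, (x : ℝ) ≤ Real.exp (c * r l)) → ∀ i ∈ ((Icc 1 (x ^ A)) ×ˢ (range (x ^ A)) : Finset (ℕ × ℕ)),
          ∀ τ : ℝ, |τ| ≤ (x : ℝ) ^ (2 * A) → ∀ M M' : ℕ, M' ≤ x → ‖shortSum ψ (wt i) τ M M'‖ ≤ (x : ℝ) ^ (1 / 2 + δ))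
      rw [← hW1] at h3
      refine ⟨W, h3, fun S hS hSW x hyx hxr => ?_⟩
      exact fun h4 ψ hψ p hp t ht M M' hM => hW2 S hS hSW h4 ψ hψ x hyx hxr p hp t ht M M' hM)
    hκ (by push_cast; linarith) hv hτ hE hρ
  refine ⟨E, h1.trans (le_of_eq ?_), fun x hx => ?_⟩
  · push_cast
    congr 2
    ring
  obtain ⟨i₀, hi₀⟩ := h2 x hx
  refine ⟨i₀, fun i hi m hm h3 ψ hψ X hX1 hX2 k a hk hkX t ht M M' hM' => ?_⟩
  have hX0 : (1 : ℝ) ≤ X := (Real.one_le_rpow (hv i) hκ.le).trans hX1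
  rw [sum_wt]
  refine hi₀ i hi m hm X hX1 hX2 h3 ψ hψ (k, a % k) ?_ t ?_ M M' hM'
  · exact mem_product.2 ⟨mem_Icc.2 ⟨hk, hkX⟩, mem_range.2 ((Nat.mod_lt _ hk).trans_le hkX)⟩
  · exact ht.trans (pow_le_pow_right₀ hX0 (by omega))

end Pool.Agent.Results.MP_081200_nt.CharactersInSquares
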