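import Mathlib
import Pool.Agent.X159.CU.Core

/-!
Short sums of cubic characters: `C_n` is equivalent to its restriction to primitive characters
(modulus `s` or `9s`, `s` a squarefree product of primes `≡ 1 mod 3`), and to its restriction to
cubefree moduli.
-/

set_option autoImplicit false

namespace Pool.Agent.Results.MP_081200_nt.PrimitiveReduction

open Pool.Agent.X159.CU

theorem result :
    (∀ n : ℕ, C All n ↔ C Prim n) ∧
    (∀ (q : ℕ) (χ : DirichletCharacter ℂ q), 1 ≤ q → χ ^ 3 = 1 → χ.IsPrimitive →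
      ∃ a s : ℕ, a ≤ 1 ∧ q = 9 ^ a * s ∧ Squarefree s ∧ ∀ p : ℕ, p.Prime → p ∣ s → p % 3 = 1) ∧
    (∀ n : ℕ, C All n ↔ C Cubefree n) ∧
    ((∀ n : ℕ, 3 ≤ n → C All n) ↔ ∀ k : ℕ, ∃ n : ℕ, k ≤ n ∧ C Prim n) :=
  cu_main

end Pool.Agent.Results.MP_081200_nt.PrimitiveReduction
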